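import Pool.Agent.helper61.DP.SpecA

/-!
# Project dp, module AI: induction along a counterclockwise arc
-/

namespace DP

theorem AI (hPO : PO_stmt) : AI_stmt := by
  intro x n u v P hn hu hv hP hs
  obtain ⟨h1, h2, h3, -⟩ := hPO
  have hpu := h1 x n u hn hu
  have hpv := h1 x n v hn hv
  set D : ℤ := if pos x n u ≤ pos x n v then pos x n v - pos x n u
    else pos x n v - pos x n u + 8 * n with hD
  have hD0 : 0 ≤ D := by
    rw [hD]
    split_ifs <;> omega
  have key : ∀ k : ℕ, (k : ℤ) ≤ D → ∀ w ∈ bd x n,
      (pos x n w = pos x n u + k ∨ pos x n w = pos x n u + k - 8 * n) → P w := by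
    intro k
    induction k with
    | zero =>
      intro _ w hw hk
      have hpw := h1 x n w hn hw
      have : pos x n w = pos x n u := by
        push_cast at hk
        omega
      rw [h2 x n w u hn hw hu this]
      exact hP
    | succ k ih =>
      intro hkD w hw hk
      have hpw := h1 x n w hn hw
      push_cast at hkD hk
      have hkD' := hkD
      rw [hD] at hkD
      obtain ⟨a, ha, hpa⟩ := h3 x n
        (if pos x n u + k ≤ 8 * n then pos x n u + k else pos x n u + k - 8 * n) hn
        (by split_ifs <;> omega) (by split_ifs at hkD ⊢ <;> omega)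
      have hnxt : nxt x n a w := by
        refine ⟨ha, hw, ?_⟩
        rw [hpa]
        split_ifs <;> omega
      refine hs a w hnxt ?_ ?_ ?_ ?_ (ih (by omega) a ha ?_)
      · intro h
        rw [h] at hpa
        split_ifs at hkD hpa <;> omega
      · intro h
        rw [h] at hk
        split_ifs at hkD <;> omega
      · refine ⟨hu, hv, ha, ?_⟩
        rw [hpa]
        split_ifs at hkD ⊢ <;> omega
      · refine ⟨hu, hv, hw, ?_⟩
        split_ifs at hkD ⊢ <;> omega
      · rw [hpa]
        split_ifs <;> omega
  refine key D.toNat (by omega) v hv ?_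
  rw [Int.toNat_of_nonneg hD0, hD]
  split_ifs <;> omega

end DP
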