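import Pool.Agent.helper96.DP.Basic
import Pool.Agent.helper95.DP.SpecH

/-!
# Project dp, module HTW: truncation of arms
-/

namespace DP

theorem HTW_arm (c : V → Bool) (k : Bool) (x : V) (m m' n' n : ℕ) (h1 : m ≤ m') (h2 : m' ≤ n')
    (h3 : n' ≤ n) (h : arm c k x m n) : arm c k x m' n' := by
  obtain ⟨u, hu, v, hv, hc⟩ := h
  have hu' : sd x u = m := hu
  have hv' : sd x v = n := hv
  obtain ⟨p, q, hp, hq, hpq, -, -⟩ := Con.cross hc (x := x) (m := m') (n := n') (by omega) h2 (by omega)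
  refine ⟨p, hp, q, hq, Con.mono ?_ hpq⟩
  intro w hw
  exact ⟨hw.2, hw.1.2⟩

theorem HTW : HTW_stmt := by
  intro c x m m' n' n h1 h2 h3 h
  exact ⟨HTW_arm c true x m m' n' n h1 h2 h3 h.1, HTW_arm c false x m m' n' n h1 h2 h3 h.2⟩

end DP
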