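import Pool.Agent.helper61.DP.SpecA

/-!
# Project dp, modules IF and OF: alternating crossing points separate
-/

namespace DP

/-- Alternating crossing points on the inner circle separate. -/
theorem IF (hSO : SO_stmt) (hCX : CX_stmt) : IF_stmt := by
  intro c k x m n hx hm hmn p₁ p₂ p₃ p₄ halt h1 h2 h3 h4 _ hp2 _ hp4 hcon
  obtain ⟨_, hC2, _, hC4⟩ := hCX
  obtain ⟨_, u₂, hu₂, hc₂⟩ := hp2
  obtain ⟨_, u₄, hu₄, hc₄⟩ := hp4
  rw [h2] at hc₂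
  rw [h4] at hc₄
  obtain ⟨v₂, hv₂, ha₂⟩ := hC4 x n u₂ hx hu₂
  obtain ⟨v₄, hv₄, ha₄⟩ := hC4 x n u₄ hx hu₄
  have hW1 : {w | w ∈ ann x m n ∧ c w = !k} ⊆
      {w | w ∈ ann x m n ∧ c w = !k} ∪ {v | n + 1 ≤ sd x v} := Set.subset_union_left
  have hW2 : {v | n + 1 ≤ sd x v} ⊆
      {w | w ∈ ann x m n ∧ c w = !k} ∪ {v | n + 1 ≤ sd x v} := Set.subset_union_right
  have e2 : n + 1 ≤ sd x v₂ := le_of_eq hv₂.symm
  have e4 : n + 1 ≤ sd x v₄ := le_of_eq hv₄.symm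
  have c1 : Con ({w | w ∈ ann x m n ∧ c w = !k} ∪ {v | n + 1 ≤ sd x v}) p₂ u₂ :=
    Con.mono hW1 hc₂
  have c2 : Con ({w | w ∈ ann x m n ∧ c w = !k} ∪ {v | n + 1 ≤ sd x v}) u₂ v₂ :=
    Con.single c1.mem_right ha₂ (hW2 e2)
  have c3 : Con ({w | w ∈ ann x m n ∧ c w = !k} ∪ {v | n + 1 ≤ sd x v}) v₂ v₄ :=
    Con.mono hW2 (hC2 x (n + 1) v₂ v₄ (by omega) e2 e4)
  have c5 : Con ({w | w ∈ ann x m n ∧ c w = !k} ∪ {v | n + 1 ≤ sd x v}) u₄ p₄ :=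
    Con.symm (Con.mono hW1 hc₄)
  have c4 : Con ({w | w ∈ ann x m n ∧ c w = !k} ∪ {v | n + 1 ≤ sd x v}) v₄ u₄ :=
    Con.single c3.mem_right ha₄.symm c5.mem_left
  have c6 := (((c1.trans c2).trans c3).trans c4).trans c5
  have hsub1 : {w | w ∈ ann x m n ∧ c w = k} ⊆ {v | m ≤ sd x v} := fun w hw => hw.1.1
  have hsub2 : {w | w ∈ ann x m n ∧ c w = !k} ∪ {v | n + 1 ≤ sd x v} ⊆ {v | m ≤ sd x v} := by
    rintro w (hw | hw)
    · exact hw.1.1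
    · have : n + 1 ≤ sd x w := hw
      show m ≤ sd x w
      omega
  obtain ⟨w, hw, hw'⟩ := hSO x m p₁ p₂ p₃ p₄ _ _ hx hm halt hsub1 hsub2 hcon c6
  rcases hw' with hw' | hw'
  · have e1 : c w = k := hw.2
    have e2 : c w = !k := hw'.2
    rw [e1] at e2
    cases k <;> simp at e2
  · have e1 : sd x w ≤ n := hw.1.2
    have e2 : n + 1 ≤ sd x w := hw'
    omega

/-- Alternating crossing points on the outer circle separate. -/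
theorem OF (hSI : SI_stmt) (hCX : CX_stmt) : OF_stmt := by
  intro c k x m n hx hm hmn u₁ u₂ u₃ u₄ halt h1 h2 h3 h4 _ hu2 _ hu4 hcon
  obtain ⟨hC1, _, hC3, _⟩ := hCX
  obtain ⟨_, p₂, hp₂, hc₂⟩ := hu2
  obtain ⟨_, p₄, hp₄, hc₄⟩ := hu4
  rw [h2] at hc₂
  rw [h4] at hc₄
  obtain ⟨m', rfl⟩ : ∃ m', m = m' + 1 := ⟨m - 1, by omega⟩
  obtain ⟨v₂, hv₂, ha₂⟩ := hC3 x m' p₂ hx hp₂
  obtain ⟨v₄, hv₄, ha₄⟩ := hC3 x m' p₄ hx hp₄
  have hW1 : {w | w ∈ ann x (m' + 1) n ∧ c w = !k} ⊆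
      {w | w ∈ ann x (m' + 1) n ∧ c w = !k} ∪ box x m' := Set.subset_union_left
  have hW2 : box x m' ⊆ {w | w ∈ ann x (m' + 1) n ∧ c w = !k} ∪ box x m' :=
    Set.subset_union_right
  have e2 : v₂ ∈ box x m' := le_of_eq hv₂
  have e4 : v₄ ∈ box x m' := le_of_eq hv₄
  have c1 : Con ({w | w ∈ ann x (m' + 1) n ∧ c w = !k} ∪ box x m') u₂ p₂ :=
    Con.mono hW1 hc₂
  have c2 : Con ({w | w ∈ ann x (m' + 1) n ∧ c w = !k} ∪ box x m') p₂ v₂ :=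
    Con.single c1.mem_right ha₂ (hW2 e2)
  have c3 : Con ({w | w ∈ ann x (m' + 1) n ∧ c w = !k} ∪ box x m') v₂ v₄ :=
    Con.mono hW2 (hC1 x m' v₂ v₄ e2 e4)
  have c5 : Con ({w | w ∈ ann x (m' + 1) n ∧ c w = !k} ∪ box x m') p₄ u₄ :=
    Con.symm (Con.mono hW1 hc₄)
  have c4 : Con ({w | w ∈ ann x (m' + 1) n ∧ c w = !k} ∪ box x m') v₄ p₄ :=
    Con.single c3.mem_right ha₄.symm c5.mem_left
  have c6 := (((c1.trans c2).trans c3).trans c4).trans c5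
  have hsub1 : {w | w ∈ ann x (m' + 1) n ∧ c w = k} ⊆ box x n := fun w hw => hw.1.2
  have hsub2 : {w | w ∈ ann x (m' + 1) n ∧ c w = !k} ∪ box x m' ⊆ box x n := by
    rintro w (hw | hw)
    · exact hw.1.2
    · have : sd x w ≤ m' := hw
      show sd x w ≤ n
      omega
  obtain ⟨w, hw, hw'⟩ := hSI x n u₁ u₂ u₃ u₄ _ _ hx (by omega) halt hsub1 hsub2 hcon c6
  rcases hw' with hw' | hw'
  · have e1 : c w = k := hw.2
    have e2 : c w = !k := hw'.2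
    rw [e1] at e2
    cases k <;> simp at e2
  · have e1 : m' + 1 ≤ sd x w := hw.1.1
    have e2 : sd x w ≤ m' := hw'
    omega

end DP
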