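import Pool.Agent.helper61.DP.SpecC

/-!
# Project dp, module RR3: a crossing of the large rectangle leaves the revealed set
-/

namespace DP

theorem RR3_last {W Z : Set V} {u v : V} (h : Con W u v) (hu : u ∈ Z) :
    v ∈ Z ∨ ∃ a b, a ∈ W ∧ a ∈ Z ∧ Adj a b ∧ Con (W \ Z) b v := by
  obtain ⟨hW, h⟩ := h
  induction h with
  | refl => exact Or.inl hu
  | @tail p q h1 h2 ih =>
    have hp : p ∈ W := Con.mem_right ⟨hW, h1⟩
    by_cases hq : q ∈ Z
    · exact Or.inl hq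
    · right
      rcases ih with h3 | ⟨a, b, ha, ha', hab, h4⟩
      · exact ⟨p, q, hp, h3, h2.1, Con.refl ⟨h2.2, hq⟩⟩
      · exact ⟨a, b, ha, ha', hab, h4.step h2.1 ⟨h2.2, hq⟩⟩

theorem RR3_rf_rf (h : ℤ) (v : V) : rf h (rf h v) = v := by
  unfold rf
  ext
  · rfl
  · simp

theorem RR3_rf_adj (h : ℤ) {v w : V} (hvw : Adj v w) : Adj (rf h v) (rf h w) := by
  rw [adj_iff] at hvw ⊢
  unfold rf
  simp only
  omega

theorem RR3 : RR3_stmt := by
  intro c c' a b h ha hab hh hcr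
  obtain ⟨u, t, hu, ht, hcon⟩ := hcr
  set X := RV c a h with hX
  have huR : u ∈ rect 0 b 0 (2 * h) := (Con.mem_left hcon).1
  have huZ : u ∈ {z | z ∈ X ∨ rf h z ∈ X} := by
    have h1 : 0 ≤ u.2 := huR.2.2.1
    have h2 : u.2 ≤ 2 * h := huR.2.2.2
    by_cases h3 : u.2 ≤ h
    · left
      exact ⟨⟨by omega, by omega, h1, h3⟩, Or.inl hu⟩
    · right
      refine ⟨⟨?_, ?_, ?_, ?_⟩, Or.inl hu⟩
      · show 0 ≤ u.1
        omega
      · show u.1 ≤ a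
        omega
      · show 0 ≤ 2 * h - u.2
        omega
      · show 2 * h - u.2 ≤ h
        omega
  rcases RR3_last hcon huZ with (h1 | h1) | ⟨v, w, hvW, hvZ, hvw, hc⟩
  · exact Or.inl ⟨t, h1, Or.inl ht⟩
  · exact Or.inl ⟨rf h t, h1, Or.inl ht⟩
  · rcases hvZ with h1 | h1
    · left
      refine ⟨v, h1, Or.inr ⟨w, t, hvw, ht, hc.mono ?_⟩⟩
      rintro z ⟨⟨hz1, hz2⟩, hz3⟩
      have hz4 : ¬ (z ∈ X ∨ rf h z ∈ X) := hz3
      push Not at hz4
      exact ⟨⟨hz1, hz4.1, hz4.2⟩, hz2⟩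
    · right
      refine ⟨rf h v, h1, Or.inr ⟨rf h w, rf h t, RR3_rf_adj h hvw, ht, ?_⟩⟩
      have key : ∀ z, z ∈ {w | w ∈ rect 0 b 0 (2 * h) ∧ c' w = true} \ {z | z ∈ X ∨ rf h z ∈ X} →
          rf h z ∈ {w | w ∈ {z | z ∈ rect 0 b 0 (2 * h) ∧ z ∉ X ∧ rf h z ∉ X} ∧
            c' (rf h w) = true} := by
        rintro z ⟨⟨hz1, hz2⟩, hz3⟩
        have hz4 : ¬ (z ∈ X ∨ rf h z ∈ X) := hz3
        push Not at hz4
        refine ⟨⟨⟨hz1.1, hz1.2.1, ?_, ?_⟩, hz4.2, ?_⟩, ?_⟩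
        · have := hz1.2.2.2
          show 0 ≤ 2 * h - z.2
          omega
        · have := hz1.2.2.1
          show 2 * h - z.2 ≤ 2 * h
          omega
        · rw [RR3_rf_rf]
          exact hz4.1
        · rw [RR3_rf_rf]
          exact hz2
      have hc1 := Con.mem_left hc
      exact Con.induct' hc (fun z => Con {w | w ∈ {z | z ∈ rect 0 b 0 (2 * h) ∧ z ∉ X ∧ rf h z ∉ X} ∧
            c' (rf h w) = true} (rf h w) (rf h z)) (Con.refl (key w hc1))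
        fun p q _ hq hpq hP => hP.step (RR3_rf_adj h hpq) (key q hq)

end DP
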