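import Pool.Agent.helper61.DP.SpecA

/-!
# Project dp, module TI: three points in order near a point of the inner circle
-/

namespace DP

theorem TI_ray1 {W : Set V} (p : V) (s : ℤ) (hs : s = 1 ∨ s = -1) (T : ℕ)
    (h : ∀ t : ℕ, t ≤ T → (p.1 + s * t, p.2) ∈ W) : Con W p (p.1 + s * T, p.2) := by
  induction T with
  | zero =>
    have := h 0 le_rfl
    simp only [Nat.cast_zero, mul_zero, add_zero] at this ⊢
    exact Con.refl this
  | succ T ih =>
    refine (ih fun t ht => h t (by omega)).step ?_ (h _ le_rfl)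
    rw [adj_iff]
    push_cast
    rcases hs with rfl | rfl
    · simp
    · simp

theorem TI_ray2 {W : Set V} (p : V) (s : ℤ) (hs : s = 1 ∨ s = -1) (T : ℕ)
    (h : ∀ t : ℕ, t ≤ T → (p.1, p.2 + s * t) ∈ W) : Con W p (p.1, p.2 + s * T) := by
  induction T with
  | zero =>
    have := h 0 le_rfl
    simp only [Nat.cast_zero, mul_zero, add_zero] at this ⊢
    exact Con.refl this
  | succ T ih =>
    refine (ih fun t ht => h t (by omega)).step ?_ (h _ le_rfl)
    rw [adj_iff]
    push_cast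
    rcases hs with rfl | rfl
    · simp
    · simp

/-- From `z` to distance at least `N`, away from `y`. -/
theorem TI_out {W : Set V} (x y z : V) (m ρ N : ℕ) (hy : sd x y = m) (hρ : 1 ≤ ρ)
    (hz : m ≤ sd x z) (hzy : sd y z = ρ) (hzW : z ∈ W)
    (hW : ∀ w, m ≤ sd x w → ρ < sd y w → w ∈ W) : ∃ z', N ≤ sd x z' ∧ Con W z z' := by
  have hcase : (z.1 - y.1 = ρ ∨ z.1 - y.1 = -ρ) ∨ (z.2 - y.2 = ρ ∨ z.2 - y.2 = -ρ) := by
    unfold sd at hzy
    omega
  rcases hcase with (h | h) | (h | h)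
  · refine ⟨(z.1 + 1 * ((N + m + ρ : ℕ) : ℤ), z.2), ?_, TI_ray1 z 1 (Or.inl rfl) _ fun t _ => ?_⟩
    · unfold sd at *
      simp only
      push_cast
      omega
    · rcases Nat.eq_zero_or_pos t with rfl | ht
      · simpa using hzW
      · apply hW
        · unfold sd at *
          simp only
          omega
        · unfold sd at *
          simp only
          omega
  · refine ⟨(z.1 + -1 * ((N + m + ρ : ℕ) : ℤ), z.2), ?_, TI_ray1 z (-1) (Or.inr rfl) _ fun t _ => ?_⟩
    · unfold sd at *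
      simp only
      push_cast
      omega
    · rcases Nat.eq_zero_or_pos t with rfl | ht
      · simpa using hzW
      · apply hW
        · unfold sd at *
          simp only
          omega
        · unfold sd at *
          simp only
          omega
  · refine ⟨(z.1, z.2 + 1 * ((N + m + ρ : ℕ) : ℤ)), ?_, TI_ray2 z 1 (Or.inl rfl) _ fun t _ => ?_⟩
    · unfold sd at *
      simp only
      push_cast
      omega
    · rcases Nat.eq_zero_or_pos t with rfl | ht
      · simpa using hzW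
      · apply hW
        · unfold sd at *
          simp only
          omega
        · unfold sd at *
          simp only
          omega
  · refine ⟨(z.1, z.2 + -1 * ((N + m + ρ : ℕ) : ℤ)), ?_, TI_ray2 z (-1) (Or.inr rfl) _ fun t _ => ?_⟩
    · unfold sd at *
      simp only
      push_cast
      omega
    · rcases Nat.eq_zero_or_pos t with rfl | ht
      · simpa using hzW
      · apply hW
        · unfold sd at *
          simp only
          omega
        · unfold sd at *
          simp only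
          omega

/-- Three points in order near a point of the inner circle. -/
theorem TI (hSO : SO_stmt) (hCX : CX_stmt) (hPO : PO_stmt) (hAC : AC_stmt) : TI_stmt := by
  intro c k x m y ρ hx hy hρ hρm u₁ u₂ u₃ z harc hnear h1 h2 h3 hz hcon2 hcon1
  obtain ⟨_, hC2, _, _⟩ := hCX
  have hm : 1 ≤ m := by omega
  have hu1 : u₁ ∈ bd x m := harc.1
  have hu3 : u₃ ∈ bd x m := harc.2.1
  have hu2 : u₂ ∈ bd x m := harc.2.2.1
  have hy' : sd x y = m := hy
  have h12 : u₁ ≠ u₂ := by
    intro h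
    rw [h, h2] at h1
    cases k <;> simp at h1
  have h32 : u₃ ≠ u₂ := by
    intro h
    rw [h, h2] at h3
    cases k <;> simp at h3
  have h13 : u₁ ≠ u₃ := by
    intro h
    apply h12
    have h5 := harc.2.2.2
    rw [← h, if_pos le_rfl] at h5
    exact (hPO.2.1 x m u₂ u₁ hm hu2 hu1 (le_antisymm h5.2 h5.1)).symm
  -- the opposite point
  set u₄ : V := (2 * x.1 - y.1, 2 * x.2 - y.2) with hu₄
  have hu4 : u₄ ∈ bd x m := by
    show sd x u₄ = m
    rw [hu₄]
    unfold sd at *
    simp only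
    omega
  have hy4 : sd y u₄ = 2 * m := by
    rw [hu₄]
    unfold sd at *
    simp only
    omega
  have hself1 : onArc x m u₁ u₃ u₁ := by
    refine ⟨hu1, hu3, hu1, ?_⟩
    split_ifs with h
    · exact ⟨le_rfl, h⟩
    · exact Or.inl le_rfl
  have hself3 : onArc x m u₁ u₃ u₃ := by
    refine ⟨hu1, hu3, hu3, ?_⟩
    split_ifs with h
    · exact ⟨h, le_rfl⟩
    · exact Or.inr le_rfl
  have hne : ∀ w, onArc x m u₁ u₃ w → w ≠ u₄ := by
    intro w hw h
    have := hnear w hw
    rw [h, hy4] at this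
    omega
  have harc4 : onArc x m u₃ u₁ u₄ := by
    rcases hAC.1 x m u₁ u₃ u₄ hm hu1 hu3 hu4 h13 with h | h
    · exact absurd rfl (hne _ h)
    · exact h
  have halt : alt x m u₁ u₂ u₃ u₄ := by
    refine ⟨⟨hu1, hu2, hu3, hu4⟩, ?_, Or.inl ⟨harc, harc4⟩⟩
    simp only [List.nodup_cons, List.mem_cons, List.not_mem_nil, or_false, not_or,
      not_false_eq_true, List.nodup_nil, and_true]
    exact ⟨⟨h12, h13, hne _ hself1⟩, ⟨h32.symm, hne _ harc⟩, hne _ hself3⟩
  -- the connection from `u₂` to `u₄`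
  set W' : Set V := {w | w ∈ {v | m ≤ sd x v} ∩ box y ρ ∧ c w = !k} ∪
    {w | m ≤ sd x w ∧ ρ < sd y w} with hW'
  have hW1 : {w | w ∈ {v | m ≤ sd x v} ∩ box y ρ ∧ c w = !k} ⊆ W' := Set.subset_union_left
  have hW2 : ∀ w, m ≤ sd x w → ρ < sd y w → w ∈ W' := fun w h h' => Or.inr ⟨h, h'⟩
  have c1 : Con W' u₂ z := Con.mono hW1 hcon2
  have hzm : m ≤ sd x z := (Con.mem_right hcon2).1.1
  obtain ⟨z', hz', c2⟩ := TI_out (W := W') x y z m ρ (m + ρ + 1) hy' hρ hzm hz c1.mem_right hW2
  have c4 : ∃ z'', m + ρ + 1 ≤ sd x z'' ∧ Con W' u₄ z'' := by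
    have hcase : (y.1 - x.1 = m ∨ y.1 - x.1 = -m) ∨ (y.2 - x.2 = m ∨ y.2 - x.2 = -m) := by
      unfold sd at hy'
      omega
    rcases hcase with (h | h) | (h | h)
    · refine ⟨(u₄.1 + -1 * ((ρ + 1 : ℕ) : ℤ), u₄.2), ?_,
        TI_ray1 u₄ (-1) (Or.inr rfl) _ fun t _ => hW2 _ ?_ ?_⟩
      · rw [hu₄]; unfold sd at *; simp only; push_cast; omega
      · rw [hu₄]; unfold sd at *; simp only; omega
      · rw [hu₄]; unfold sd at *; simp only; omega
    · refine ⟨(u₄.1 + 1 * ((ρ + 1 : ℕ) : ℤ), u₄.2), ?_,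
        TI_ray1 u₄ 1 (Or.inl rfl) _ fun t _ => hW2 _ ?_ ?_⟩
      · rw [hu₄]; unfold sd at *; simp only; push_cast; omega
      · rw [hu₄]; unfold sd at *; simp only; omega
      · rw [hu₄]; unfold sd at *; simp only; omega
    · refine ⟨(u₄.1, u₄.2 + -1 * ((ρ + 1 : ℕ) : ℤ)), ?_,
        TI_ray2 u₄ (-1) (Or.inr rfl) _ fun t _ => hW2 _ ?_ ?_⟩
      · rw [hu₄]; unfold sd at *; simp only; push_cast; omega
      · rw [hu₄]; unfold sd at *; simp only; omega
      · rw [hu₄]; unfold sd at *; simp only; omega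
    · refine ⟨(u₄.1, u₄.2 + 1 * ((ρ + 1 : ℕ) : ℤ)), ?_,
        TI_ray2 u₄ 1 (Or.inl rfl) _ fun t _ => hW2 _ ?_ ?_⟩
      · rw [hu₄]; unfold sd at *; simp only; push_cast; omega
      · rw [hu₄]; unfold sd at *; simp only; omega
      · rw [hu₄]; unfold sd at *; simp only; omega
  obtain ⟨z'', hz'', c4⟩ := c4
  have c3 : Con W' z' z'' := by
    refine Con.mono ?_ (hC2 x (m + ρ + 1) z' z'' (by omega) hz' hz'')
    intro w hw
    have hw' : m + ρ + 1 ≤ sd x w := hw
    have h5 := sd_triangle x y w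
    exact hW2 w (by omega) (by omega)
  have c5 := ((c1.trans c2).trans c3).trans c4.symm
  have hsub1 : {w | w ∈ {v | m ≤ sd x v} ∩ box y ρ ∧ c w = k} ⊆ {v | m ≤ sd x v} :=
    fun w hw => hw.1.1
  have hsub2 : W' ⊆ {v | m ≤ sd x v} := by
    rintro w (hw | hw)
    · exact hw.1.1
    · exact hw.1
  obtain ⟨w, hw, hw'⟩ := hSO x m u₁ u₂ u₃ u₄ _ _ hx hm halt hsub1 hsub2 hcon1 c5
  rcases hw' with hw' | hw'
  · have e1 : c w = k := hw.2
    have e2 : c w = !k := hw'.2
    rw [e1] at e2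
    cases k <;> simp at e2
  · have e1 : sd y w ≤ ρ := hw.1.2
    have e2 : ρ < sd y w := hw'.2
    omega

end DP
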